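import Pool.Agent.LE.StmtsQF

/-! Squad LE, table lqf, row YTJ. -/

set_option autoImplicit false

open MeasureTheory ProbabilityTheory Function Filter

open scoped ENNReal BigOperators Topology NNReal ComplexOrder Matrix

noncomputable section

namespace Pool.Agent.LE.QF.H27

open Pool.Agent.LE.QF Pool.Agent.LE.QD

section Mat

variable {n : Type} [Fintype n] [DecidableEq n]

/-- the Hermitian dilation -/
def dil (v : Matrix n n ℂ) : Matrix (n ⊕ n) (n ⊕ n) ℂ := Matrix.fromBlocks 0 v vᴴ 0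

omit [Fintype n] [DecidableEq n] in
theorem dil_herm (v : Matrix n n ℂ) : (dil v).IsHermitian := by
  unfold Matrix.IsHermitian dil
  rw [Matrix.fromBlocks_conjTranspose]
  simp

omit [DecidableEq n] in
theorem dil_mul (v l : Matrix n n ℂ) :
    dil v * dil l = Matrix.fromBlocks (v * lᴴ) 0 0 (vᴴ * l) := by
  unfold dil
  rw [Matrix.fromBlocks_multiply]
  simp

theorem dil_pow (v : Matrix n n ℂ) (k : ℕ) : dil v ^ (2 * k) =
    Matrix.fromBlocks ((v * vᴴ) ^ k) 0 0 ((vᴴ * v) ^ k) := by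
  induction k with
  | zero => simp [Matrix.fromBlocks_one]
  | succ k ih =>
    rw [Nat.mul_succ, pow_add, ih, pow_two, dil_mul, Matrix.fromBlocks_multiply, pow_succ, pow_succ]
    simp

omit [DecidableEq n] in
theorem tr_blocks (A D : Matrix n n ℂ) :
    Matrix.trace (Matrix.fromBlocks A 0 0 D) = A.trace + D.trace := by
  simp [Matrix.trace, Fintype.sum_sum_type]

theorem pow_swap (v : Matrix n n ℂ) (k : ℕ) : (vᴴ * v) ^ k * vᴴ = vᴴ * (v * vᴴ) ^ k := by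
  induction k with
  | zero => simp
  | succ k ih =>
    calc (vᴴ * v) ^ (k + 1) * vᴴ = ((vᴴ * v) ^ k * vᴴ) * (v * vᴴ) := by
          rw [pow_succ]
          simp only [Matrix.mul_assoc]
      _ = vᴴ * (v * vᴴ) ^ (k + 1) := by
          rw [ih, pow_succ]
          simp only [Matrix.mul_assoc]

theorem tr_swap (v : Matrix n n ℂ) (k : ℕ) :
    Matrix.trace ((vᴴ * v) ^ k) = Matrix.trace ((v * vᴴ) ^ k) := by
  cases k with
  | zero => simp
  | succ k =>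
    rw [pow_succ, ← Matrix.mul_assoc, pow_swap, Matrix.mul_assoc, Matrix.trace_mul_comm,
      Matrix.mul_assoc, ← pow_succ]

theorem tr_dil (v : Matrix n n ℂ) (k : ℕ) :
    Matrix.trace (dil v ^ (2 * k)) = 2 * Matrix.trace ((v * vᴴ) ^ k) := by
  rw [dil_pow, tr_blocks, tr_swap]
  ring

/-- the linear term -/
theorem tr_lin (v l : Matrix n n ℂ) (k : ℕ) (hk : 1 ≤ k) :
    (Matrix.trace (dil v ^ (2 * k - 1) * dil l)).re =
      2 * (Matrix.trace ((v * vᴴ) ^ (k - 1) * l * vᴴ)).re := by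
  obtain ⟨j, rfl⟩ : ∃ j, k = j + 1 := ⟨k - 1, by omega⟩
  have h1 : 2 * (j + 1) - 1 = 2 * j + 1 := by omega
  have h2 : j + 1 - 1 = j := by omega
  rw [h1, h2, pow_succ, Matrix.mul_assoc, dil_mul, dil_pow, Matrix.fromBlocks_multiply]
  have h3 : Matrix.fromBlocks ((v * vᴴ) ^ j * (v * lᴴ) + 0 * 0)
      ((v * vᴴ) ^ j * 0 + 0 * (vᴴ * l)) (0 * (v * lᴴ) + (vᴴ * v) ^ j * 0)
      (0 * 0 + (vᴴ * v) ^ j * (vᴴ * l)) =
      Matrix.fromBlocks ((v * vᴴ) ^ j * (v * lᴴ)) 0 0 ((vᴴ * v) ^ j * (vᴴ * l)) := by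
    simp
  rw [h3, tr_blocks]
  have h4 : Matrix.trace ((vᴴ * v) ^ j * (vᴴ * l)) = Matrix.trace ((v * vᴴ) ^ j * l * vᴴ) := by
    rw [← Matrix.mul_assoc, pow_swap, Matrix.mul_assoc, Matrix.trace_mul_comm]
  have h5 : Matrix.trace ((v * vᴴ) ^ j * (v * lᴴ)) =
      star (Matrix.trace ((v * vᴴ) ^ j * l * vᴴ)) := by
    rw [← Matrix.trace_conjTranspose, Matrix.conjTranspose_mul, Matrix.conjTranspose_mul,
      Matrix.conjTranspose_conjTranspose, Matrix.conjTranspose_pow, Matrix.conjTranspose_mul,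
      Matrix.conjTranspose_conjTranspose, ← Matrix.mul_assoc v, Matrix.trace_mul_comm]
  rw [h4, h5, Complex.add_re]
  have h6 : (star (Matrix.trace ((v * vᴴ) ^ j * l * vᴴ))).re =
      (Matrix.trace ((v * vᴴ) ^ j * l * vᴴ)).re := Complex.conj_re _
  rw [h6]
  ring

omit [DecidableEq n] in
theorem re_tr (M : Matrix n n ℂ) :
    (Matrix.trace (Mᴴ * M)).re = ∑ i, n2 (fun a => M a i) := by
  unfold Matrix.trace n2
  rw [Complex.re_sum]
  refine Finset.sum_congr rfl fun i _ => ?_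
  rw [Matrix.diag_apply, Matrix.mul_apply, Complex.re_sum]
  refine Finset.sum_congr rfl fun a _ => ?_
  rw [Matrix.conjTranspose_apply]
  have h1 : star (M a i) * M a i = ((‖M a i‖ ^ 2 : ℝ) : ℂ) := by
    have := Complex.conj_mul' (M a i)
    rw [Complex.ofReal_pow]
    exact this
  rw [h1, Complex.ofReal_re]

theorem psd_bound {ι : Type} [Fintype ι] (P : Matrix n n ℂ) (hP : P.PosSemidef)
    (h : ι → Matrix n n ℂ) (ν : ℝ) (hb : ∀ u : n → ℂ, ∑ c, n2 (h c *ᵥ u) ≤ ν * n2 u) :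
    ∑ c, (Matrix.trace (P * ((h c)ᴴ * h c))).re ≤ ν * (Matrix.trace P).re := by
  obtain ⟨S, hS⟩ : ∃ S : Matrix n n ℂ, P = Sᴴ * S := by
    open MatrixOrder in
    exact CStarAlgebra.nonneg_iff_eq_star_mul_self.mp hP.nonneg
  subst hS
  have h1 : ∀ c, (Matrix.trace (Sᴴ * S * ((h c)ᴴ * h c))).re =
      ∑ i, n2 (h c *ᵥ fun b => Sᴴ b i) := by
    intro c
    have h2 : Matrix.trace (Sᴴ * S * ((h c)ᴴ * h c)) =
        Matrix.trace ((h c * Sᴴ)ᴴ * (h c * Sᴴ)) := by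
      rw [Matrix.conjTranspose_mul, Matrix.conjTranspose_conjTranspose, Matrix.mul_assoc,
        Matrix.trace_mul_comm]
      simp only [Matrix.mul_assoc]
    rw [h2, re_tr]
    rfl
  have h3 : (Matrix.trace (Sᴴ * S)).re = ∑ i, n2 (fun b => Sᴴ b i) := by
    have h4 : Matrix.trace (Sᴴ * S) = Matrix.trace ((Sᴴ)ᴴ * Sᴴ) := by
      rw [Matrix.conjTranspose_conjTranspose, Matrix.trace_mul_comm]
    rw [h4, re_tr]
  rw [Finset.sum_congr rfl fun c _ => h1 c, h3, Finset.sum_comm, Finset.mul_sum]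
  exact Finset.sum_le_sum fun i _ => hb _

/-- the second order term -/
theorem quad {ι : Type} [Fintype ι] (v : Matrix n n ℂ) (g : ι → Matrix n n ℂ) (j : ℕ) (ν : ℝ)
    (h1 : ∀ u : n → ℂ, ∑ c, n2 (g c *ᵥ u) ≤ ν * n2 u)
    (h2 : ∀ u : n → ℂ, ∑ c, n2 ((g c)ᴴ *ᵥ u) ≤ ν * n2 u) :
    ∑ c, (Matrix.trace (dil v ^ (2 * j) * (dil (g c) * dil (g c)))).re ≤
      2 * ν * (Matrix.trace ((v * vᴴ) ^ j)).re := by
  have h3 : ∀ c, (Matrix.trace (dil v ^ (2 * j) * (dil (g c) * dil (g c)))).re =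
      (Matrix.trace ((v * vᴴ) ^ j * (((g c)ᴴ)ᴴ * (g c)ᴴ))).re +
      (Matrix.trace ((vᴴ * v) ^ j * ((g c)ᴴ * g c))).re := by
    intro c
    rw [dil_mul, dil_pow, Matrix.fromBlocks_multiply]
    have h4 : Matrix.fromBlocks ((v * vᴴ) ^ j * (g c * (g c)ᴴ) + 0 * 0)
        ((v * vᴴ) ^ j * 0 + 0 * ((g c)ᴴ * g c)) (0 * (g c * (g c)ᴴ) + (vᴴ * v) ^ j * 0)
        (0 * 0 + (vᴴ * v) ^ j * ((g c)ᴴ * g c)) =
        Matrix.fromBlocks ((v * vᴴ) ^ j * (g c * (g c)ᴴ)) 0 0 ((vᴴ * v) ^ j * ((g c)ᴴ * g c)) := by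
      simp
    rw [h4, tr_blocks, Complex.add_re, Matrix.conjTranspose_conjTranspose]
  rw [Finset.sum_congr rfl fun c _ => h3 c, Finset.sum_add_distrib]
  have h5 := psd_bound ((v * vᴴ) ^ j) ((Matrix.posSemidef_self_mul_conjTranspose v).pow j)
    (fun c => (g c)ᴴ) ν h2
  have h6 := psd_bound ((vᴴ * v) ^ j) ((Matrix.posSemidef_conjTranspose_mul_self v).pow j)
    g ν h1
  rw [tr_swap] at h6
  linarith

end Mat

theorem ytj (jal : JalStmt) (jma : JmaStmt) (tri : TriStmt) : YtjStmt := by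
  intro ι _ _ q n _ _ F v l g k ν hF hk hν hb1 hb2
  have hD : HM (fun r => dil (F r)) q (dil v) (fun c => dil (g c)) (dil l) := by
    rintro (a | a) (b | b)
    · exact (jal ι ℂ q).1 0
    · exact hF a b
    · exact ((jal ι ℂ q).2.2.2.1 _ _ _ _ (hF b a)).1
    · exact (jal ι ℂ q).1 0
  have hJ := ((jma ι ℂ q).2 (n ⊕ n) _ _ _ _ hD).2 (2 * k) (by omega)
  have hR := ((jal ι ℂ q).2.2.2.1 _ _ _ _ hJ).2.1
  have hH := ((jal ι ℝ q).2.2.1 _ _ _ _ _ _ _ _ ((jal ι ℝ q).1 (1 / 2 : ℝ)) hR).2.2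
  have hfun : (fun r => (1 / 2 : ℝ) * RCLike.re (Matrix.trace (dil (F r) ^ (2 * k)))) =
      fun r => (Matrix.trace ((F r * (F r)ᴴ) ^ k)).re := by
    funext r
    rw [tr_dil]
    simp
  have hval : (1 / 2 : ℝ) * RCLike.re (Matrix.trace (dil v ^ (2 * k))) =
      (Matrix.trace ((v * vᴴ) ^ k)).re := by
    rw [tr_dil]
    simp
  rw [hfun, hval] at hH
  refine ⟨_, _, hH, ?_⟩
  obtain ⟨j, rfl⟩ : ∃ j, k = j + 1 := ⟨k - 1, by omega⟩
  have hT : ∀ c, (∑ i ∈ Finset.range (2 * (j + 1) - 1),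
      Matrix.trace (dil (g c) * dil v ^ i * dil (g c) * dil v ^ (2 * (j + 1) - 2 - i))).re ≤
      (2 * j + 1) * (Matrix.trace (dil v ^ (2 * j) * (dil (g c) * dil (g c)))).re := by
    intro c
    have h1 := tri ℂ (n ⊕ n) (dil v) (dil (g c)) (2 * j) (dil_herm v) (dil_herm (g c))
      (Or.inr ⟨j, by ring⟩)
    have h2 : 2 * (j + 1) - 1 = 2 * j + 1 := by omega
    have h3 : 2 * (j + 1) - 2 = 2 * j := by omega
    rw [h2, h3]
    have h4 : ((2 * j : ℕ) : ℝ) + 1 = 2 * j + 1 := by push_cast; ring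
    rw [h4] at h1
    exact h1
  have hQ := quad v g j ν hb1 hb2
  have hS : (∑ c, ∑ i ∈ Finset.range (2 * (j + 1) - 1),
      Matrix.trace (dil (g c) * dil v ^ i * dil (g c) * dil v ^ (2 * (j + 1) - 2 - i))).re ≤
      (2 * j + 1) * (2 * ν * (Matrix.trace ((v * vᴴ) ^ j)).re) := by
    rw [Complex.re_sum]
    refine (Finset.sum_le_sum fun c _ => hT c).trans ?_
    rw [← Finset.mul_sum]
    exact mul_le_mul_of_nonneg_left hQ (by positivity)
  have hL := tr_lin v l (j + 1) hk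
  have e1 : (RCLike.re (((2 * (j + 1) : ℕ) : ℂ) *
        Matrix.trace (dil v ^ (2 * (j + 1) - 1) * dil l) +
        ((2 * (j + 1) : ℕ) : ℂ) / 2 * ∑ c, ∑ i ∈ Finset.range (2 * (j + 1) - 1),
          Matrix.trace (dil (g c) * dil v ^ i * dil (g c) * dil v ^ (2 * (j + 1) - 2 - i))) : ℝ) =
      (2 * (j + 1)) * (Matrix.trace (dil v ^ (2 * (j + 1) - 1) * dil l)).re +
      (j + 1) * (∑ c, ∑ i ∈ Finset.range (2 * (j + 1) - 1),
          Matrix.trace (dil (g c) * dil v ^ i * dil (g c) *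
            dil v ^ (2 * (j + 1) - 2 - i))).re := by
    have h7 : ((2 * (j + 1) : ℕ) : ℂ) = (((2 * (j + 1) : ℝ)) : ℂ) := by push_cast; ring
    have h8 : ((2 * (j + 1) : ℕ) : ℂ) / 2 = ((((j + 1) : ℝ)) : ℂ) := by push_cast; ring
    rw [h8, h7]
    rw [RCLike.re_eq_complex_re, Complex.add_re, Complex.re_ofReal_mul, Complex.re_ofReal_mul]
  rw [e1, hL]
  have h9 : j + 1 - 1 = j := by omega
  rw [h9]
  simp only [zero_mul, Finset.sum_const_zero, add_zero]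
  push_cast
  have h10 : ((j : ℝ) + 1) * (∑ c, ∑ i ∈ Finset.range (2 * (j + 1) - 1),
      Matrix.trace (dil (g c) * dil v ^ i * dil (g c) * dil v ^ (2 * (j + 1) - 2 - i))).re ≤
      ((j : ℝ) + 1) * ((2 * j + 1) * (2 * ν * (Matrix.trace ((v * vᴴ) ^ j)).re)) :=
    mul_le_mul_of_nonneg_left hS (by positivity)
  linarith

end Pool.Agent.LE.QF.H27
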